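import Pool.Agent.H23.AE.Even
import Pool.Agent.H23.AE.Odd
import Pool.Agent.H23.AE.Small
import Pool.Agent.H23.AE.Asm

/-!
# MP_ae97ec_co, Q1: the case d = 4 in full

For every `v ≥ 4` there is a vertex-transitive centrally symmetric (cs) neighborly simplicial
3-sphere with `2 v` vertices.  The statement is literally the frozen statement `S10791` for
`d = 4`: all the words are spelled out, there are no auxiliary definitions.

Construction: for coprime `a ≠ b` let `N = a + b` and `n = 3 a + 2 b`.  The facets
`{y, y+1, y+1+s, y+1+s+a}` (`1 ≤ s < b`), `{y, y+1, y+1+s, y+1+s+b}` (`1 ≤ s < a`) and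
`{k, k+a, k+a+b, k+2a+b}` modulo `n` form a 3-sphere (explicit shelling), all of whose edge classes
are `1, …, a + b`.  For `a = 2`, `b = v - 3` this is cs neighborly (`v` even), for `a = 4`,
`b = v - 6` (`v ≥ 7` odd) one orbit of bistellar flips adds the only missing edge class `v - 1`.
-/

namespace Pool.Agent.Results.MP_ae97ec_co.AllDimFour

/-- For every `v ≥ 4` there is a simplicial complex `K` on the `2 v` vertices `Fin (2 * v)`
(closed under subsets, all vertices used) whose geometric realization (union of the convex hulls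
of the corresponding basis vectors) is homeomorphic to the 3-sphere, with a free involution `ι`
of the vertices which preserves faces and fixes no nonempty face, such that every 2-set of
vertices which is not an antipodal pair is a face, and such that the automorphisms of `K` act
transitively on the vertices. -/
theorem result :
    ∀ v : ℕ, 4 ≤ v →
    ∃ K : Finset (Finset (Fin (2 * v))),
      (∀ σ ∈ K, ∀ τ : Finset (Fin (2 * v)), τ ⊆ σ → τ ∈ K) ∧
      (∀ i : Fin (2 * v), ({i} : Finset (Fin (2 * v))) ∈ K) ∧
      Nonempty (↥(⋃ σ ∈ K, convexHull ℝ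
          ((fun i : Fin (2 * v) => EuclideanSpace.single i (1 : ℝ)) '' (↑σ : Set (Fin (2 * v)))))
        ≃ₜ Metric.sphere (0 : EuclideanSpace ℝ (Fin 4)) 1) ∧
      (∃ ι : Equiv.Perm (Fin (2 * v)),
        (∀ i, ι (ι i) = i) ∧ (∀ i, ι i ≠ i) ∧
        (∀ σ ∈ K, σ.image ι ∈ K) ∧
        (∀ σ ∈ K, σ.Nonempty → σ.image ι ≠ σ) ∧
        (∀ τ : Finset (Fin (2 * v)), τ.card = 2 → (∀ i ∈ τ, ι i ∉ τ) → τ ∈ K)) ∧
      (∀ a b : Fin (2 * v), ∃ g : Equiv.Perm (Fin (2 * v)), g a = b ∧
        ∀ σ : Finset (Fin (2 * v)), σ ∈ K ↔ σ.image g ∈ K) := by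
  intro v hv
  have h : ∃ K, Pool.Agent.H23.AE.CSN v K := by
    rcases Nat.even_or_odd v with he | ho
    · rcases Nat.lt_or_ge v 6 with h6 | h6
      · have h4 : v = 4 := by
          obtain ⟨k, hk⟩ := he
          omega
        subst h4
        exact Pool.Agent.H23.AE.csn_four
      · exact Pool.Agent.H23.AE.csn_even h6 he
    · rcases Nat.lt_or_ge v 7 with h7 | h7
      · have h5 : v = 5 := by
          obtain ⟨k, hk⟩ := ho
          omega
        subst h5
        exact Pool.Agent.H23.AE.csn_five
      · exact Pool.Agent.H23.AE.csn_odd h7 ho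
  obtain ⟨K, hK⟩ := h
  exact Pool.Agent.H23.AE.asm hv hK

end Pool.Agent.Results.MP_ae97ec_co.AllDimFour
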