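import Pool.Agent.H55.NS.Tr
import Pool.Agent.H23.LZ.Fin

/-!
# No vertex-transitive centrally symmetric neighborly 5-sphere with 18 vertices

Lutz asked (problem MP_ae97ec_co) whether for every even `d ≥ 2` and every `v ≥ d` there is a
centrally symmetric neighborly simplicial `(d - 1)`-sphere with `2 v` vertices whose automorphism
group acts transitively on the vertices. The answer is negative: there is none for `d = 6`, `v = 9`.
-/

set_option autoImplicit false

universe u

namespace Pool.Agent.Results.MP_ae97ec_co.EighteenVertices

variable {V : Type u} [Fintype V]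

/-- The geometric realization of the complex `K` with the finite vertex set `V`, in barycentric
coordinates: the nonnegative functions on `V` with sum `1` whose support is a face of `K`, with
the topology of `V → ℝ`. -/
def realization (K : AbstractSimplicialComplex V) : Set (V → ℝ) :=
  {x | (∀ v, 0 ≤ x v) ∧ ∑ v, x v = 1 ∧ ∃ F ∈ K.faces, ∀ v, v ∈ F ↔ x v ≠ 0}

/-- `K` is a simplicial `(d - 1)`-sphere: its realization is homeomorphic to the unit sphere of
`ℝ ^ d`. -/
def IsSphere (d : ℕ) (K : AbstractSimplicialComplex V) : Prop :=
  Nonempty (↥(realization K) ≃ₜ Metric.sphere (0 : EuclideanSpace ℝ (Fin d)) 1)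

/-- `g` is an automorphism of `K`: a permutation of the vertices which maps faces to faces. -/
def IsAutomorphism (K : AbstractSimplicialComplex V) (g : Equiv.Perm V) : Prop :=
  ∀ F ∈ K.faces, F.map g.toEmbedding ∈ K.faces

/-- `α` is a simplicial involution of `K` with `α F ≠ F` for every nonempty face `F`. (The faces of
`K` are nonempty by definition.) -/
def IsAntipodal (K : AbstractSimplicialComplex V) (α : Equiv.Perm V) : Prop :=
  (∀ v, α (α v) = v) ∧ IsAutomorphism K α ∧ ∀ F ∈ K.faces, F.map α.toEmbedding ≠ F

/-- `K` is cs `d / 2`-neighborly: every set of `d / 2` vertices which contains no pair `v`, `α v` is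
a face. -/
def IsNeighborly (d : ℕ) (K : AbstractSimplicialComplex V) (α : Equiv.Perm V) : Prop :=
  ∀ F : Finset V, F.card = d / 2 → (∀ v ∈ F, α v ∉ F) → F ∈ K.faces

/-- `K` is vertex-transitive. -/
def IsVertexTransitive (K : AbstractSimplicialComplex V) : Prop :=
  ∀ a b : V, ∃ g : Equiv.Perm V, IsAutomorphism K g ∧ g a = b

/-- A centrally symmetric neighborly simplicial 5-sphere with 18 vertices (`d = 6`, `v = 9`) is not
vertex-transitive. -/
theorem result (V : Type u) [Fintype V] (hV : Fintype.card V = 2 * 9)
    (K : AbstractSimplicialComplex V) (hK : IsSphere 6 K) (α : Equiv.Perm V)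
    (hα : IsAntipodal K α) (hN : IsNeighborly 6 K α) : ¬ IsVertexTransitive K := by
  intro htr
  exact Pool.Agent.H55.NS.main H23.LZ.Ck.c18 H23.LZ.Ck.c33 hV K hK α hα.1 hα.2.1 hα.2.2
    (fun F hF => hN F hF) htr

end Pool.Agent.Results.MP_ae97ec_co.EighteenVertices
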